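import Pool.Agent.Lib.Tracial.ThmA
import Pool.Agent.P.MP_a6af55_an.Super
import Pool.Agent.P.MP_a6af55_an.LG
import Pool.Agent.P.MP_a6af55_an.Tree

/-! Without separability the super McDuff property is not an elementary invariant. -/

namespace Pool.Agent.P.MP_9c3fb4_an

open Pool.Agent.Lib.Tracial Pool.Agent.P.MP_a6af55_an Filter Topology Finset

variable {A B : Type} [CStarAlgebra A] [CStarAlgebra B]

/-- countably many elements have a common spectral gap witness -/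
def Sat (t : TrState A) : Prop :=
  ∀ x : ℕ → A, (∀ k, ‖x k‖ ≤ 1) → ∃ y : Fin 7 → A, ∀ k, t.dev (x k) ≤ 411 * ∑ j, t.cm (y j) (x k)

lemma Sat.iso {t : TrState A} {s : TrState B} (e : A ≃⋆ₐ[ℂ] B) (he : ∀ a, s.τ (e a) = t.τ a)
    (h : Sat t) : Sat s := by
  intro x hx
  have hc := cm_map (e : A →⋆ₐ[ℂ] B) he
  have hd := dev_map (e : A →⋆ₐ[ℂ] B) he
  simp only [StarAlgHom.coe_coe] at hc hd
  obtain ⟨x, rfl⟩ : ∃ x' : ℕ → A, x = fun i => e (x' i) := ⟨fun i => e.symm (x i), by simp⟩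
  obtain ⟨y, h⟩ := h x fun i => by simpa [StarAlgEquiv.norm_map] using hx i
  exact ⟨fun j => e (y j), by simpa only [hc, hd] using h⟩

lemma sat_up (t : TrState A) (V : Ultrafilter ℕ) (hV : ∀ n, V ≠ pure n)
    (hP : ∀ n, ∀ ε > 0, PropP t n ε) : Sat (upTr t V) := by
  intro x hx
  choose X hX hX' using fun k => exists_ball t V (x k) (hx k)
  choose y hy h using fun m : ℕ => hP m _ (Nat.one_div_pos_of_nat (n := m))
    (fun i => X i m) fun i => hX' i m
  refine ⟨fun j => mkU t V (BB.mk (fun m => y m j) 1 fun m => hy m j), fun k => ?_⟩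
  rw [← hX k]
  have h0 : Tendsto (fun m : ℕ => 1 / ((m : ℝ) + 1)) V (𝓝 0) :=
    tendsto_one_div_add_atTop_nhds_zero_nat.mono_left (le_atTop V hV)
  have h1 := (h0.add ((tendsto_finsetSum univ fun j _ => tendsto_cm t V
    (BB.mk (fun m => y m j) 1 fun m => hy m j) (X k)).const_mul 411)).add h0
  rw [zero_add, add_zero] at h1
  refine le_of_tendsto_of_tendsto (tendsto_dev t V (X k)) h1 ?_
  filter_upwards [(le_atTop V hV) (eventually_gt_atTop k)] with m hm
  obtain ⟨w, -, h2, h3⟩ := h m (X k m) (hX' k m)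
  have h4 : t.cm w (X k m) ≤ 1 / ((m : ℝ) + 1) := by
    have := h2 ⟨k, hm⟩
    rwa [TrState.cm, t.n2_sub_comm] at this
  exact h3.trans (by gcongr; exact le_rfl)

lemma not_super (t : TrState A) [t.W] (U : Ultrafilter ℕ) (h : Sat t) : ¬ SuperMcDuff t U := by
  intro hs
  have h1 := (commutantIsII1_iff (upTr t U) _).1 hs
  have h2 : ∀ z ∈ StarSubalgebra.centralizer ℂ (Set.range (Ultrapower.diag t U)), ‖z‖ ≤ 1 →
      z = (upTr t U).τ z • 1 := by
    intro z hz hz1
    obtain ⟨X, rfl, hX⟩ := exists_ball t U z hz1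
    obtain ⟨y, hy⟩ := h X hX
    have h3 := le_of_tendsto_of_tendsto' (tendsto_dev t U X)
      ((tendsto_finsetSum univ fun j _ => tendsto_cm_diag t U (y j) X).const_mul 411) hy
    simp only [TrState.cm, (mem_cent_iff t U).1 hz, sub_self, TrState.n2_zero, sum_const_zero,
      mul_zero] at h3
    exact (upTr t U).eq_of_n2 (h3.antisymm ((upTr t U).n2_nonneg _))
  refine h1.2 (Module.Finite.of_surjective (LinearMap.toSpanSingleton ℂ _ 1) fun z => ?_)
  have hp : 0 < ‖z.1‖ + 1 := by positivity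
  have h0 : (((‖z.1‖ + 1)⁻¹ : ℝ) : ℂ) ≠ 0 := by exact_mod_cast (inv_pos.2 hp).ne'
  have h3 := h2 _ (SMulMemClass.smul_mem (((‖z.1‖ + 1)⁻¹ : ℝ) : ℂ) z.2) (by
    rw [norm_smul, Complex.norm_real, Real.norm_of_nonneg (by positivity), inv_mul_le_iff₀ hp]
    linarith)
  rw [map_smul, smul_assoc] at h3
  exact ⟨_, Subtype.ext (smul_right_injective _ h0 h3).symm⟩

lemma diag_bijective (t : TrState A) [t.W] : Function.Bijective (diagHom t (pure () : Ultrafilter Unit)) := by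
  refine ⟨diag_injective t _, fun q => ?_⟩
  obtain ⟨x, rfl⟩ := mkU_surjective t _ q
  exact ⟨x (), congrArg (mkU t _) (BoundedContinuousFunction.ext fun _ => rfl)⟩

theorem counter (U : Ultrafilter ℕ) (hU : ∀ n, U ≠ pure n) : ∃ N M : II1Factor.{0},
    N.tr.Separable ∧ ElemEquiv.{0, 0} N.tr M.tr ∧ SuperMcDuff N.tr U ∧ ¬ SuperMcDuff M.tr U := by
  let S := treeSys (β := fun _ => false) rfl rfl
  obtain ⟨N, ⟨L⟩⟩ := exists_lg (RG (Gr fun _ => false)) fun _ _ _ _ L => isInfFactor L S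
  have hN := superMcDuff L S U hU
  obtain ⟨M, e, he⟩ := exists_II1 (upTr N.tr U) (isInfFactor_up N.tr U N.isInfFactor)
  refine ⟨N, M, L.separable, ⟨ℕ, Unit, U, pure (),
    ⟨e.trans (StarAlgEquiv.ofBijective _ (diag_bijective M.tr))⟩⟩, hN, not_super _ U ?_⟩
  exact (sat_up N.tr U hU fun n ε hε => propP_of_super N.tr U hU L.separable
    ((commutantIsII1_iff (upTr N.tr U) _).1 hN) n hε).iso e he

end Pool.Agent.P.MP_9c3fb4_an
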