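import Pool.Agent.Lib.Tracial.ThmA

namespace Pool.Agent.P.MP_9c3fb4_an

open Pool.Agent.Lib.Tracial
open scoped ComplexOrder ENNReal
open Filter Topology Finset

universe u u' v w

variable {ι : Type*} {A : ι → Type*} [∀ i, CStarAlgebra (A i)]

/-- Norm-bounded families in a product of C-star algebras. -/
def bddProd (A : ι → Type*) [∀ i, CStarAlgebra (A i)] : StarSubalgebra ℂ (∀ i, A i) where
  carrier := {x | ∃ C : ℝ, ∀ i, ‖x i‖ ≤ C}
  mul_mem' := fun ⟨C, hC⟩ ⟨D, hD⟩ => ⟨C * D, fun i => (norm_mul_le _ _).trans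
    (mul_le_mul (hC i) (hD i) (norm_nonneg _) ((norm_nonneg _).trans (hC i)))⟩
  add_mem' := fun ⟨C, hC⟩ ⟨D, hD⟩ =>
    ⟨C + D, fun i => (norm_add_le _ _).trans (add_le_add (hC i) (hD i))⟩
  algebraMap_mem' c := ⟨‖c‖, fun i => by
    rcases subsingleton_or_nontrivial (A i) with h | h
    · simp [Subsingleton.elim (algebraMap ℂ (∀ i, A i) c i) 0]
    · exact (norm_algebraMap' (A i) c).le⟩
  star_mem' := fun ⟨C, hC⟩ => ⟨C, fun i => (norm_star _).le.trans (hC i)⟩

/-- The star algebra of norm-bounded families. -/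
@[implicit_reducible] def BddProd (A : ι → Type*) [∀ i, CStarAlgebra (A i)] : Type _ := bddProd A

instance : Ring (BddProd A) := (bddProd A).toSubalgebra.toRing
noncomputable instance : StarRing (BddProd A) := StarMemClass.instStarRing (bddProd A)
noncomputable instance : Algebra ℂ (BddProd A) := (bddProd A).algebra
instance : StarModule ℂ (BddProd A) := (bddProd A).starModule

/-- The entries of a bounded family. -/
def BddProd.val (x : BddProd A) : ∀ i, A i := x.1

variable (t : ∀ i, TrState (A i)) (V : Ultrafilter ι)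

lemma null_iff (x : ∀ i, A i) : Tendsto (fun i => (t i).τ (star (x i) * x i)) V (𝓝 0) ↔
    Tendsto (fun i => (t i).n2 (x i)) V (𝓝 0) := by
  rw [tendsto_zero_iff_norm_tendsto_zero]
  simp only [TrState.norm_τ_star_mul]
  refine ⟨fun h => ?_, fun h => by simpa using h.pow 2⟩
  simpa [Real.sqrt_sq (TrState.n2_nonneg _ _)] using h.sqrt

/-- Bounded families whose trace norm tends to zero along the ultrafilter. -/
def nullProd : StarIdeal (BddProd A) where
  carrier := {x | Tendsto (fun i => (t i).τ (star (x.val i) * x.val i)) V (𝓝 0)}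
  zero_mem := (null_iff t V _).2 (tendsto_const_nhds.congr fun i => (t i).n2_zero.symm)
  add_mem _ hx _ hy := (null_iff t V _).2 (squeeze_zero (fun _ => TrState.n2_nonneg _ _)
    (fun i => (t i).n2_add_le _ _)
    (by simpa [BddProd.val] using ((null_iff t V _).1 hx).add ((null_iff t V _).1 hy)))
  mul_mem_left := fun ⟨_, C, hC⟩ _ hy => (null_iff t V _).2
    (squeeze_zero (fun _ => TrState.n2_nonneg _ _) (fun i => ((t i).n2_mul_le _ _).trans
      (mul_le_mul_of_nonneg_right (hC i) (TrState.n2_nonneg _ _)))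
    (by simpa [BddProd.val] using ((null_iff t V _).1 hy).const_mul C))
  mul_mem_right := fun ⟨_, C, hC⟩ _ hy => (null_iff t V _).2
    (squeeze_zero (fun _ => TrState.n2_nonneg _ _) (fun i => ((t i).n2_mul_le' _ _).trans
      (mul_le_mul_of_nonneg_left (hC i) (TrState.n2_nonneg _ _)))
    (by simpa [BddProd.val] using ((null_iff t V _).1 hy).mul_const C))
  star_mem _ h := (null_iff t V _).2
    (((null_iff t V _).1 h).congr fun i => ((t i).n2_star _).symm)

/-- The tracial ultraproduct: bounded families modulo the trace-null ones. -/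
abbrev Ultraproduct : Type _ := (nullProd t V).Quot

section

variable [∀ i, Nontrivial (A i)]

noncomputable instance : CStarAlgebra (lp A ∞) where

/-- Bounded family from a function. -/
def mkL (f : ∀ i, A i) (h : ∀ i, ‖f i‖ ≤ 1) : lp A ∞ :=
  ⟨f, memℓp_infty ⟨1, by rintro _ ⟨i, rfl⟩; exact h i⟩⟩

lemma nle (x : lp A ∞) (i : ι) : ‖x i‖ ≤ ‖x‖ := lp.norm_apply_le_norm ENNReal.top_ne_zero x i

/-- The quotient map onto the ultraproduct. -/
noncomputable def mkP : lp A ∞ →⋆ₐ[ℂ] Ultraproduct t V where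
  toFun x := (nullProd t V).mkQ ⟨fun i => x i, ‖x‖, nle x⟩
  map_one' := rfl
  map_mul' _ _ := rfl
  map_zero' := rfl
  map_add' _ _ := rfl
  commutes' c := by
    rw [Algebra.algebraMap_eq_smul_one, Algebra.algebraMap_eq_smul_one]; rfl
  map_star' _ := rfl

lemma mkP_surjective : Function.Surjective (mkP t V) := by
  rintro ⟨x, C, hC⟩
  exact ⟨⟨x, memℓp_infty ⟨C, by rintro _ ⟨i, rfl⟩; exact hC i⟩⟩, rfl⟩

lemma mkP_eq_zero_iff (x : lp A ∞) :
    mkP t V x = 0 ↔ Tendsto (fun i => (t i).n2 (x i)) V (𝓝 0) :=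
  (Submodule.Quotient.mk_eq_zero _).trans (null_iff t V _)

variable {Q : Type*} [CStarAlgebra Q] (s : TrState Q) (π : lp A ∞ →⋆ₐ[ℂ] Q)
  (hπ : Function.Surjective π)

include hπ in
lemma trace_lim [s.W] (hQ : IsInfFactor Q)
    (hk : ∀ x, π x = 0 → Tendsto (fun i => (t i).n2 (x i)) V (𝓝 0)) (x : lp A ∞) :
    Tendsto (fun i => (t i).τ (x i)) V (𝓝 (s.τ (π x))) := by
  choose l hl using fun x : lp A ∞ =>
    exists_ulim V fun i => ((t i).norm_τ_le (x i)).trans (nle x i)
  have key : ∀ x, Tendsto (fun i => (t i).τ (x i)) V (𝓝 (l (Function.surjInv hπ (π x)))) := by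
    intro x
    have h := hk (Function.surjInv hπ (π x) - x) (by
      rw [map_sub, Function.surjInv_eq hπ, sub_self])
    refine (hl _).congr_dist (squeeze_zero (fun _ => dist_nonneg) (fun i => ?_) h)
    rw [dist_eq_norm, ← map_sub]
    exact (t i).norm_τ_le_n2 _
  let σ : TrState Q :=
    { τ :=
        { toFun q := l (Function.surjInv hπ q)
          map_add' p q := by
            obtain ⟨x, rfl⟩ := hπ p
            obtain ⟨y, rfl⟩ := hπ q
            rw [← map_add]
            exact tendsto_nhds_unique (key _)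
              (((key x).add (key y)).congr fun i => (map_add _ _ _).symm)
          map_smul' c p := by
            obtain ⟨x, rfl⟩ := hπ p
            rw [← map_smul]
            exact tendsto_nhds_unique (key _)
              (((key x).const_smul c).congr fun i => (map_smul _ _ _).symm) }
      map_one := by
        rw [← map_one π]
        exact tendsto_nhds_unique (key _) (tendsto_const_nhds.congr fun i => (t i).map_one.symm)
      nonneg p := by
        obtain ⟨x, rfl⟩ := hπ p
        rw [← map_star, ← map_mul]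
        exact ge_of_tendsto' (key _) fun i => (t i).nonneg _
      trace p q := by
        obtain ⟨x, rfl⟩ := hπ p
        obtain ⟨y, rfl⟩ := hπ q
        rw [← map_mul, ← map_mul]
        exact tendsto_nhds_unique (key _) ((key (y * x)).congr fun i => (t i).trace _ _) }
  rw [← s.τ_unique hQ σ]
  exact key x

variable {t V s π} (hτ : ∀ x, Tendsto (fun i => (t i).τ (x i)) V (𝓝 (s.τ (π x))))

include hτ

lemma lim_n2 (x : lp A ∞) : Tendsto (fun i => (t i).n2 (x i)) V (𝓝 (s.n2 (π x))) := by
  have := (Complex.continuous_re.tendsto _).comp (hτ (star x * x))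
  rw [map_mul, map_star, ← TrState.n2_sq] at this
  have h2 := this.sqrt
  rw [Real.sqrt_sq (TrState.n2_nonneg _ _)] at h2
  refine h2.congr fun i => ?_
  change √((t i).τ (star (x i) * x i)).re = _
  rw [← TrState.n2_sq, Real.sqrt_sq (TrState.n2_nonneg _ _)]

lemma lim_cm (x y : lp A ∞) :
    Tendsto (fun i => (t i).cm (x i) (y i)) V (𝓝 (s.cm (π x) (π y))) := by
  have := lim_n2 hτ (x * y - y * x)
  rwa [map_sub, map_mul, map_mul] at this

lemma lim_dev (x : lp A ∞) : Tendsto (fun i => (t i).dev (x i)) V (𝓝 (s.dev (π x))) := by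
  have h1 := lim_n2 hτ (x - s.τ (π x) • 1)
  rw [map_sub, map_smul, map_one] at h1
  have h2 := tendsto_iff_norm_sub_tendsto_zero.1 (hτ x)
  refine h1.congr_dist (squeeze_zero (fun _ => dist_nonneg) (fun i => ?_) h2)
  refine (dist_norm_norm_le _ _).trans_eq ?_
  rw [← map_sub, TrState.norm_Λ]
  change (t i).n2 (x i - s.τ (π x) • 1 - (x i - (t i).τ (x i) • 1)) = _
  rw [sub_sub_sub_cancel_left, ← sub_smul, TrState.n2_smul, TrState.n2_one, mul_one]

omit hτ in
include hπ in
lemma lift_ball (q : Q) (hq : ‖q‖ ≤ 1) : ∃ x, π x = q ∧ ∀ i, ‖x i‖ ≤ 1 := by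
  obtain ⟨x, rfl⟩ := hπ q
  obtain ⟨y, h1, h2⟩ := exists_lift π x hq
  exact ⟨y, h1, fun i => (nle y i).trans h2⟩

omit hτ in
lemma norm_mkL (f : ∀ i, A i) (h : ∀ i, ‖f i‖ ≤ 1) : ‖π (mkL f h)‖ ≤ 1 :=
  (NonUnitalStarAlgHom.norm_apply_le π _).trans (lp.norm_le_of_forall_le zero_le_one h)

include hπ

lemma propP_prod {n : ℕ} {ε : ℝ} (h : ∀ i, PropP (t i) n ε) : PropP s n ε := by
  intro x hx
  choose X hX hX' using fun i => lift_ball hπ (x i) (hx i)
  choose y hy hy' using fun k => h k (fun i => X i k) fun i => hX' i k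
  refine ⟨fun j => π (mkL (fun k => y k j) fun k => hy k j), fun j => norm_mkL _ _, fun z hz => ?_⟩
  obtain ⟨Z, rfl, hZ⟩ := lift_ball hπ z hz
  choose w hw h1 h2 using fun k => hy' k (Z k) (hZ k)
  refine ⟨π (mkL w hw), norm_mkL _ _, fun i => ?_, ?_⟩
  · rw [← hX]
    exact le_of_tendsto' (lim_cm hτ _ _) fun k => h1 k i
  · exact le_of_tendsto_of_tendsto' (lim_dev hτ Z) (((lim_cm hτ _ Z).add
      ((tendsto_finset_sum _ fun j _ => lim_cm hτ _ Z).const_mul _)).add_const _) h2

lemma propQ_prod {n d : ℕ} {ε : ℝ} (h : ∀ i, PropQ (t i) n d ε) : PropQ s n d ε := by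
  intro x hx
  choose X hX hX' using fun i => lift_ball hπ (x i) (hx i)
  choose w hw h1 h2 using fun k => h k (fun i => X i k) fun i => hX' i k
  refine ⟨fun a => π (mkL (fun k => w k a) fun k => hw k a), fun a => norm_mkL _ _,
    fun i a => ?_, fun a b => ?_⟩
  · rw [← hX]
    exact le_of_tendsto' (lim_cm hτ _ _) fun k => h1 k i a
  · have := hτ (star (mkL (fun k => w k a) fun k => hw k a) * mkL (fun k => w k b) fun k => hw k b)
    rw [map_mul, map_star] at this
    exact le_of_tendsto' (this.sub_const _).norm fun k => h2 k a b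

end

/-- Separable factors elementarily equivalent to an ultraproduct of super McDuff factors. -/
theorem super_of_ultraproduct (U : Ultrafilter ℕ) (hU : ∀ n, U ≠ pure n) {I : Type u'}
    (V : Ultrafilter I) (N : I → II1Factor.{u}) (P M : II1Factor.{w})
    (hN : ∀ i, (N i).tr.Separable) (h : ∀ i, SuperMcDuff (N i).tr U)
    (e : Ultraproduct (fun i => (N i).tr) V ≃⋆ₐ[ℂ] P.Alg) (hM : M.tr.Separable)
    (he : ElemEquiv.{w, v} P.tr M.tr) : SuperMcDuff M.tr U := by
  have : ∀ i, Nontrivial (N i).Alg := fun i => (N i).tr.nontrivial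
  let π := (e : _ →⋆ₐ[ℂ] P.Alg).comp (mkP (fun i => (N i).tr) V)
  have hπ : Function.Surjective π := e.surjective.comp (mkP_surjective _ V)
  have hτ := trace_lim (fun i => (N i).tr) V P.tr π hπ P.isInfFactor fun x hx =>
    (mkP_eq_zero_iff _ V x).1 (e.injective (hx.trans (map_zero e).symm))
  have h1 := fun i => (commutantIsII1_iff (upTr (N i).tr U) _).1 (h i)
  obtain ⟨K, J, U₁, U₂, ⟨f⟩⟩ := he
  have hf := τ_equiv (upTr P.tr U₁) (isInfFactor_up P.tr U₁ P.isInfFactor) (upTr M.tr U₂) f
  refine (commutantIsII1_iff (upTr M.tr U) _).2 (super_of_PQ M.tr U hU hM (fun n ε hε => ?_)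
    fun n d ε hε => ?_)
  · exact (((propP_prod hπ hτ fun i => propP_of_super (N i).tr U hU (hN i) (h1 i) n
      (half_pos hε)).up U₁).iso f hf).down (half_lt_self hε)
  · exact (((propQ_prod hπ hτ fun i => propQ_of_super (N i).tr U (h1 i) n d
      (half_pos hε)).up U₁).iso f hf).down (half_lt_self hε)

end Pool.Agent.P.MP_9c3fb4_an
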