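import Pool.Agent.Lib.Tracial.ThmA

open Pool.Agent.Lib.Tracial

universe u v

theorem Pool.Agent.P.MP_9c3fb4_an.variantInvariant :
    ∀ (U : Ultrafilter ℕ), (∀ n, U ≠ pure n) → ∀ (N M : II1Factor.{u}),
      N.tr.Separable → M.tr.Separable → ElemEquiv.{u, v} N.tr M.tr →
        SuperMcDuff N.tr U → SuperMcDuff M.tr U :=
  fun U hU N M hN hM he h => super_transfer N.tr M.tr N.isInfFactor hN hM U hU he h
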